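import Pool.Agent.Lib_c1afad.NoWordCount
import Pool.Agent.Lib_c1afad.Radius

/-!
# Almost one-to-one surjective cellular automata without dense periodic points have
exponentially long transients
-/

namespace Pool.Agent.Results.MP_c1afad_an.LongTransients

open Function Filter CurveTrace

/-- Let `F` be a surjective cellular automaton on a full shift such that some point has exactly
one preimage.  There is `θ > 1` with the following property.  If the jointly periodic points of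
`F` are not dense then, for some `β < |A|` and all large `n`, fewer than `β ^ n` of the `|A| ^ n`
points of spatial period `n` are periodic for `F` after `θ ^ n` steps. -/
theorem result {A : Type} [Fintype A] [Nonempty A] [TopologicalSpace A] [DiscreteTopology A]
    (F : (ℤ → A) → (ℤ → A)) (hcont : Continuous F) (hcomm : ∀ x, F (sh x) = sh (F x))
    (hsurj : Surjective F) (huniq : ∃ z : ℤ → A, ∃! x, F x = z) :
    ∃ θ : ℝ, 1 < θ ∧ (¬ Dense (JP F) → ∃ β : ℝ, β < Fintype.card A ∧ ∀ᶠ n : ℕ in atTop,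
      (({x | sh^[n] x = x ∧ ∃ q : ℕ, 0 < q ∧ F^[q] (F^[⌊θ ^ n⌋₊] x) = F^[⌊θ ^ n⌋₊] x}.ncard : ℕ)
        : ℝ) < β ^ n) := by
  classical
  obtain ⟨r, hr⟩ := exists_radius hcont hcomm
  obtain ⟨z0, hz0⟩ := huniq
  obtain ⟨l0, m0, c, hl0, hmagic⟩ := exists_magic hcont hcomm r z0 hz0
  obtain ⟨γ0, C0, hγ00, hγ01, hC0, hN0⟩ := noWord_card A hl0
  obtain ⟨s, hs⟩ : ∃ s : ℝ, s = Real.sqrt γ0 := ⟨_, rfl⟩
  have hs0 : 0 < s := by rw [hs]; exact Real.sqrt_pos.2 hγ00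
  have hss : s * s = γ0 := by rw [hs]; exact Real.mul_self_sqrt hγ00.le
  have hs1 : s < 1 := by
    by_contra hcon
    push Not at hcon
    nlinarith
  obtain ⟨s', hs'⟩ : ∃ s' : ℝ, s' = Real.sqrt s := ⟨_, rfl⟩
  have hs'0 : 0 < s' := by rw [hs']; exact Real.sqrt_pos.2 hs0
  have hs's : s' * s' = s := by rw [hs']; exact Real.mul_self_sqrt hs0.le
  have hs'1 : s' < 1 := by
    by_contra hcon
    push Not at hcon
    nlinarith
  obtain ⟨θ, hθ⟩ : ∃ θ : ℝ, θ = 1 / s' := ⟨_, rfl⟩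
  have hθ1 : 1 < θ := by
    rw [hθ, lt_div_iff₀ hs'0]
    linarith
  have hθγ : θ * θ * γ0 = s := by
    rw [hθ, ← hss, ← hs's]
    field_simp
  refine ⟨θ, hθ1, ?_⟩
  intro hnd
  -- a word which does not occur
  obtain ⟨l, hl, u, hu⟩ : ∃ l : ℕ, 0 < l ∧ ∃ u : ℤ → A, ¬ ∃ x ∈ JP F,
      ∀ i : ℤ, 0 ≤ i → i < l → x i = u i := by
    by_contra hcon
    push Not at hcon
    exact hnd (dense_JP hcomm fun l hl u => by
      obtain ⟨x, hx, h⟩ := hcon l hl u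
      exact ⟨x, hx, h⟩)
  obtain ⟨γ1, C1, hγ10, hγ11, hC1, hN1⟩ := noWord_card A hl
  have hJ : ∀ n : ℕ, 0 < n → JPer F n ⊆ NoWord A n l u := by
    intro n hn x hx
    refine ⟨hx.1, fun b => ?_⟩
    by_contra hcon
    push Not at hcon
    apply hu
    refine ⟨shz b x, mem_JP_of hn (JPer_shz hcomm hx b), ?_⟩
    intro i hi0 hi1
    rw [shz_apply, add_comm]
    exact hcon i hi0 hi1
  obtain ⟨α, hα⟩ : ∃ α : ℝ, α = Fintype.card A := ⟨_, rfl⟩
  have hα1 : 1 ≤ α := by rw [hα]; exact_mod_cast Fintype.card_pos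
  have hα0 : 0 < α := by linarith
  have hcardA : ((Nat.card A : ℕ) : ℝ) = α := by rw [hα, Nat.card_eq_fintype_card]
  obtain ⟨K, hK⟩ : ∃ K : ℝ, K = α ^ (2 * r) := ⟨_, rfl⟩
  have hKpos : 0 < K := by rw [hK]; positivity
  obtain ⟨δ, hδ⟩ : ∃ δ : ℝ, δ = max γ1 s := ⟨_, rfl⟩
  have hδ1 : δ < 1 := by rw [hδ]; exact max_lt hγ11 hs1
  have hδ0 : 0 < δ := by rw [hδ]; exact lt_max_of_lt_left hγ10
  have hγδ : γ1 ≤ δ := by rw [hδ]; exact le_max_left _ _
  have hsδ : s ≤ δ := by rw [hδ]; exact le_max_right _ _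
  have hbound : ∀ n : ℕ, 0 < n → ((Late F n ⌊θ ^ n⌋₊).ncard : ℝ) ≤
      (C1 + K * C0) * (δ * α) ^ n := by
    intro n hn
    have hPfin : (NoWord A n l u).Finite := (Per_finite hn).subset fun x hx => hx.1
    have h1 := late_le hcomm hr hsurj hmagic hn ⌊θ ^ n⌋₊
    have h2 : ((JPer F n).ncard : ℝ) ≤ C1 * (γ1 * α) ^ n := by
      refine le_trans ?_ (hcardA ▸ hN1 u n hn)
      exact_mod_cast Set.ncard_le_ncard (hJ n hn) hPfin
    have h3 : ((NoWord A n l0 m0).ncard : ℝ) ≤ C0 * (γ0 * α) ^ n := hcardA ▸ hN0 m0 n hn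
    have hT : ((⌊θ ^ n⌋₊ : ℕ) : ℝ) ≤ θ ^ n := Nat.floor_le (by positivity)
    have hT0 : (0 : ℝ) ≤ ((⌊θ ^ n⌋₊ : ℕ) : ℝ) := by positivity
    have h4 : ((Late F n ⌊θ ^ n⌋₊).ncard : ℝ) ≤ (JPer F n).ncard +
        (((⌊θ ^ n⌋₊ : ℕ) : ℝ) * ((⌊θ ^ n⌋₊ : ℕ) : ℝ)) *
          (((Nat.card A : ℕ) : ℝ) ^ (2 * r) * ((NoWord A n l0 m0).ncard : ℝ)) := by
      exact_mod_cast h1
    rw [hcardA, ← hK] at h4
    calc ((Late F n ⌊θ ^ n⌋₊).ncard : ℝ) ≤ _ := h4
      _ ≤ C1 * (γ1 * α) ^ n + (θ ^ n * θ ^ n) * (K * (C0 * (γ0 * α) ^ n)) := by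
          gcongr
      _ = C1 * (γ1 * α) ^ n + K * C0 * ((θ * θ * γ0) * α) ^ n := by
          rw [mul_pow, mul_pow (γ0), mul_pow (θ * θ * γ0), mul_pow (θ * θ), mul_pow θ]
          ring
      _ ≤ C1 * (δ * α) ^ n + K * C0 * (δ * α) ^ n := by
          rw [hθγ]
          gcongr
      _ = _ := by ring
  refine ⟨(1 + δ) / 2 * α, ?_, ?_⟩
  · rw [← hα]
    nlinarith
  · have hρ0 : 0 ≤ δ / ((1 + δ) / 2) := by positivity
    have hρ1 : δ / ((1 + δ) / 2) < 1 := by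
      rw [div_lt_one (by linarith)]
      linarith
    have hC3 : 0 < C1 + K * C0 := by positivity
    have hev := (tendsto_pow_atTop_nhds_zero_of_lt_one hρ0 hρ1).eventually
      (gt_mem_nhds (show (0 : ℝ) < 1 / (C1 + K * C0) by positivity))
    filter_upwards [hev, eventually_gt_atTop 0] with n hn hn0
    have heq : {x | sh^[n] x = x ∧ ∃ q : ℕ, 0 < q ∧
        F^[q] (F^[⌊θ ^ n⌋₊] x) = F^[⌊θ ^ n⌋₊] x} = Late F n ⌊θ ^ n⌋₊ := by
      ext x
      constructor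
      · rintro ⟨h1, h2⟩
        exact ⟨h1, Per_iterate hcomm h1 _, h2⟩
      · rintro ⟨h1, _, h2⟩
        exact ⟨h1, h2⟩
    rw [heq]
    refine lt_of_le_of_lt (hbound n hn0) ?_
    have h5 : (δ * α) ^ n = (δ / ((1 + δ) / 2)) ^ n * ((1 + δ) / 2 * α) ^ n := by
      rw [← mul_pow]
      congr 1
      field_simp
    rw [h5, ← mul_assoc]
    have h6 : 0 < ((1 + δ) / 2 * α) ^ n := by positivity
    have h7 : (C1 + K * C0) * (δ / ((1 + δ) / 2)) ^ n < 1 := by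
      rw [lt_div_iff₀ hC3, mul_comm] at hn
      exact hn
    calc _ < 1 * ((1 + δ) / 2 * α) ^ n := mul_lt_mul_of_pos_right h7 h6
      _ = _ := one_mul _

end Pool.Agent.Results.MP_c1afad_an.LongTransients
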